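import Mathlib

set_option autoImplicit false

open Finset

namespace Q119.VS

section prob

variable {E : Type*} [DecidableEq E]

/-- the product weight of a subset `A` of `X` -/
noncomputable def wt (X : Finset E) (p : ℝ) (A : Finset E) : ℝ :=
  (∏ _x ∈ A, p) * ∏ _x ∈ X \ A, (1 - p)

lemma wt_nonneg (X : Finset E) {p : ℝ} (h0 : 0 ≤ p) (h1 : p ≤ 1) (A : Finset E) :
    0 ≤ wt X p A := by
  unfold wt
  exact mul_nonneg (Finset.prod_nonneg fun _ _ => h0)
    (Finset.prod_nonneg fun _ _ => by linarith)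

lemma wt_sum (X : Finset E) (p : ℝ) : ∑ A ∈ X.powerset, wt X p A = 1 := by
  unfold wt
  rw [← Finset.prod_add]
  simp

/-- probability that `S ⊆ A` -/
lemma wt_superset (X : Finset E) (p : ℝ) (S : Finset E) (hS : S ⊆ X) :
    ∑ A ∈ X.powerset.filter (fun A => S ⊆ A), wt X p A = p ^ S.card := by
  have h := Finset.prod_add (fun _ : E => p) (fun x => if x ∈ S then 0 else 1 - p) X
  have h1 : ∏ x ∈ X, (p + if x ∈ S then 0 else 1 - p) = p ^ S.card := by
    rw [← Finset.prod_sdiff hS]
    have h2 : ∏ x ∈ X \ S, (p + if x ∈ S then (0:ℝ) else 1 - p) = 1 := by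
      apply Finset.prod_eq_one
      intro x hx
      rw [if_neg (Finset.mem_sdiff.1 hx).2]
      ring
    have h3 : ∏ x ∈ S, (p + if x ∈ S then (0:ℝ) else 1 - p) = p ^ S.card := by
      rw [← Finset.prod_const]
      apply Finset.prod_congr rfl
      intro x hx
      rw [if_pos hx, add_zero]
    rw [h2, h3, one_mul]
  rw [← h1, h, Finset.sum_filter]
  apply Finset.sum_congr rfl
  intro A hA
  split_ifs with hSA
  · unfold wt
    congr 1
    apply Finset.prod_congr rfl
    intro x hx
    rw [if_neg]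
    intro hxS
    exact (Finset.mem_sdiff.1 hx).2 (hSA hxS)
  · obtain ⟨x, hxS, hxA⟩ := Finset.not_subset.1 hSA
    symm
    apply mul_eq_zero_of_right
    apply Finset.prod_eq_zero (Finset.mem_sdiff.2 ⟨hS hxS, hxA⟩)
    simp [hxS]

/-- lower tail of `|A ∩ V|` -/
lemma wt_lower (X : Finset E) {p : ℝ} (h0 : 0 ≤ p) (h1 : p ≤ 1) (V : Finset E) (hV : V ⊆ X)
    (t : ℕ) :
    ∑ A ∈ X.powerset.filter (fun A => (A ∩ V).card ≤ t), wt X p A
      ≤ 2 ^ t * (1 - p / 2) ^ V.card := by
  have h := Finset.prod_add (fun x : E => if x ∈ V then p / 2 else p) (fun _ => 1 - p) X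
  have h2 : ∏ x ∈ X, ((if x ∈ V then p / 2 else p) + (1 - p)) = (1 - p / 2) ^ V.card := by
    rw [← Finset.prod_sdiff hV]
    have h2 : ∏ x ∈ X \ V, ((if x ∈ V then p / 2 else p) + (1 - p)) = 1 := by
      apply Finset.prod_eq_one
      intro x hx
      rw [if_neg (Finset.mem_sdiff.1 hx).2]
      ring
    have h3 : ∏ x ∈ V, ((if x ∈ V then p / 2 else p) + (1 - p)) = (1 - p / 2) ^ V.card := by
      rw [← Finset.prod_const]
      apply Finset.prod_congr rfl
      intro x hx
      rw [if_pos hx]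
      ring
    rw [h2, h3, one_mul]
  have h3 : ∀ A ∈ X.powerset, (∏ x ∈ A, (if x ∈ V then p / 2 else p)) * ∏ _x ∈ X \ A, (1 - p)
      = (1 / 2) ^ (A ∩ V).card * wt X p A := by
    intro A _
    unfold wt
    rw [← mul_assoc]
    congr 1
    have h4 : ∀ x ∈ A, (if x ∈ V then p / 2 else p) = (if x ∈ V then (1 / 2 : ℝ) else 1) * p := by
      intro x _
      split_ifs <;> ring
    rw [Finset.prod_congr rfl h4, Finset.prod_mul_distrib, Finset.prod_ite]
    simp [Finset.filter_mem_eq_inter]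
  rw [← h2, h, Finset.sum_congr rfl h3, Finset.mul_sum, Finset.sum_filter]
  apply Finset.sum_le_sum
  intro A _
  have hw := wt_nonneg X h0 h1 A
  split_ifs with hA
  · have h5 : (1 : ℝ) ≤ 2 ^ t * (1 / 2) ^ (A ∩ V).card := by
      rw [one_div, inv_pow, ← div_eq_mul_inv, one_le_div (by positivity)]
      exact pow_le_pow_right₀ (by norm_num) hA
    calc wt X p A = 1 * wt X p A := (one_mul _).symm
      _ ≤ (2 ^ t * (1 / 2) ^ (A ∩ V).card) * wt X p A := mul_le_mul_of_nonneg_right h5 hw
      _ = _ := by ring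
  · positivity

/-- the expected number of disjoint families of size `s` -/
lemma wt_disjoint (X : Finset E) {p : ℝ} (h0 : 0 ≤ p) (h1 : p ≤ 1) (T : Finset (Finset E))
    (hT : ∀ S ∈ T, S ⊆ X ∧ S.card = 3) (s : ℕ) :
    ∑ A ∈ X.powerset.filter (fun A => ∃ G ⊆ T, G.card = s ∧
        (∀ S ∈ G, ∀ S' ∈ G, S ≠ S' → Disjoint S S') ∧ ∀ S ∈ G, S ⊆ A), wt X p A
      ≤ (T.card.choose s : ℝ) * (p ^ 3) ^ s := by
  classical
  let Gs := (T.powersetCard s).filter
    (fun G => ∀ S ∈ G, ∀ S' ∈ G, S ≠ S' → Disjoint S S')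
  have step : ∑ A ∈ X.powerset.filter (fun A => ∃ G ⊆ T, G.card = s ∧
        (∀ S ∈ G, ∀ S' ∈ G, S ≠ S' → Disjoint S S') ∧ ∀ S ∈ G, S ⊆ A), wt X p A
      ≤ ∑ G ∈ Gs, ∑ A ∈ X.powerset.filter (fun A => G.biUnion id ⊆ A), wt X p A := by
    have hrw : ∀ G ∈ Gs, ∑ A ∈ X.powerset.filter (fun A => G.biUnion id ⊆ A), wt X p A
        = ∑ A ∈ X.powerset, if G.biUnion id ⊆ A then wt X p A else 0 := by
      intro G _
      rw [Finset.sum_filter]
    rw [Finset.sum_congr rfl hrw, Finset.sum_comm, Finset.sum_filter]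
    apply Finset.sum_le_sum
    intro A _
    have hnn : ∀ G ∈ Gs, 0 ≤ if G.biUnion id ⊆ A then wt X p A else 0 := by
      intro G _
      split_ifs
      · exact wt_nonneg X h0 h1 A
      · exact le_rfl
    split_ifs with hA
    · obtain ⟨G, hG1, hG2, hG3, hG4⟩ := hA
      have hmem : G ∈ Gs := Finset.mem_filter.2 ⟨Finset.mem_powersetCard.2 ⟨hG1, hG2⟩, hG3⟩
      have := Finset.single_le_sum hnn hmem
      rw [if_pos] at this
      · exact this
      · rw [Finset.biUnion_subset]
        exact hG4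
    · exact Finset.sum_nonneg hnn
  refine step.trans ?_
  have h2 : ∀ G ∈ Gs, ∑ A ∈ X.powerset.filter (fun A => G.biUnion id ⊆ A), wt X p A
      = (p ^ 3) ^ s := by
    intro G hG
    obtain ⟨hG1, hG2⟩ := Finset.mem_filter.1 hG
    obtain ⟨hG3, hG4⟩ := Finset.mem_powersetCard.1 hG1
    rw [wt_superset]
    · have : (G.biUnion id).card = 3 * s := by
        rw [Finset.card_biUnion]
        · have h5 : ∀ S ∈ G, (id S : Finset E).card = 3 := fun S hS => (hT S (hG3 hS)).2
          rw [Finset.sum_congr rfl h5, Finset.sum_const, hG4]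
          simp [mul_comm]
        · intro S hS S' hS' hne
          exact hG2 S hS S' hS' hne
      rw [this, pow_mul]
    · rw [Finset.biUnion_subset]
      intro S hS
      exact (hT S (hG3 hS)).1
  rw [Finset.sum_congr rfl h2, Finset.sum_const, nsmul_eq_mul]
  apply mul_le_mul_of_nonneg_right _ (by positivity)
  have h3 : Gs.card ≤ T.card.choose s := by
    refine (Finset.card_le_card (Finset.filter_subset _ _)).trans ?_
    rw [Finset.card_powersetCard]
  exact_mod_cast h3

end prob

section vec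

variable {n : ℕ}

/-- the Schur triples inside `X` that meet `V` -/
def triples (X V : Finset (Fin n → ZMod 2)) : Finset (Finset (Fin n → ZMod 2)) :=
  ((V ×ˢ (Finset.univ : Finset (Fin n → ZMod 2))).image
    (fun q => ({q.1, q.2, q.1 + q.2} : Finset (Fin n → ZMod 2)))).filter
    (fun S => S ⊆ X ∧ S.card = 3)

lemma triples_card (X V : Finset (Fin n → ZMod 2)) :
    (triples X V).card ≤ V.card * 2 ^ n := by
  unfold triples
  refine (Finset.card_filter_le _ _).trans (Finset.card_image_le.trans ?_)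
  rw [Finset.card_product, Finset.card_univ]
  simp [ZMod.card]

lemma add_self (x : Fin n → ZMod 2) : x + x = 0 := by
  ext i
  exact CharTwo.add_self_eq_zero _

lemma add_add_cancel' (x y : Fin n → ZMod 2) : x + (x + y) = y := by
  rw [← add_assoc, add_self, zero_add]

/-- Schur triple set -/
def tri (x y : Fin n → ZMod 2) : Finset (Fin n → ZMod 2) := {x, y, x + y}

lemma tri_swap (x y : Fin n → ZMod 2) : tri x y = tri y x := by
  unfold tri
  rw [add_comm y x]
  ext z
  simp only [Finset.mem_insert, Finset.mem_singleton]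
  tauto

lemma tri_rot (x y : Fin n → ZMod 2) : tri (x + y) y = tri x y := by
  unfold tri
  have : x + y + y = x := by rw [add_assoc, add_self, add_zero]
  rw [this]
  ext z
  simp only [Finset.mem_insert, Finset.mem_singleton]
  tauto

lemma tri_card {x y : Fin n → ZMod 2} (hx : x ≠ 0) (hy : y ≠ 0) (hxy : x ≠ y) :
    (tri x y).card = 3 := by
  unfold tri
  rw [Finset.card_eq_three]
  refine ⟨x, y, x + y, hxy, ?_, ?_, rfl⟩
  · intro h
    exact hy (by simpa using h)
  · intro h
    exact hx (by simpa using h)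

lemma mem_triples {X V : Finset (Fin n → ZMod 2)} {x y v : Fin n → ZMod 2}
    (hX : tri x y ⊆ X) (hc : (tri x y).card = 3) (hv : v ∈ V) (hvt : v ∈ tri x y) :
    tri x y ∈ triples X V := by
  unfold triples
  rw [Finset.mem_filter]
  refine ⟨?_, hX, hc⟩
  rw [Finset.mem_image]
  have hvt' : v = x ∨ v = y ∨ v = x + y := by
    simpa [tri] using hvt
  rcases hvt' with rfl | rfl | rfl
  · exact ⟨(v, y), by simp [hv], rfl⟩
  · exact ⟨(v, x), by simp [hv], tri_swap v x⟩
  · exact ⟨(x + y, y), by simp [hv], tri_rot x y⟩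

/-- deterministic part: delete a maximal disjoint family of Schur triples -/
lemma delete (X A : Finset (Fin n → ZMod 2)) (hX : (0 : Fin n → ZMod 2) ∉ X) (hA : A ⊆ X) :
    ∃ A' ⊆ A, (∀ x ∈ A', ∀ y ∈ A', x ≠ y → x + y ∉ A') ∧
      ∀ (V : Finset (Fin n → ZMod 2)) (s : ℕ), (∀ x ∈ A', x ∉ V) →
        (A ∩ V).card ≤ 3 * s ∨ ∃ G ⊆ triples X V, G.card = s ∧
        (∀ S ∈ G, ∀ S' ∈ G, S ≠ S' → Disjoint S S') ∧ ∀ S ∈ G, S ⊆ A := by
  classical
  -- families of disjoint triples
  let P : Finset (Finset (Finset (Fin n → ZMod 2))) :=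
    (A.powerset.powerset).filter (fun G =>
      (∀ S ∈ G, ∃ x y, S = tri x y ∧ S.card = 3) ∧
      ∀ S ∈ G, ∀ S' ∈ G, S ≠ S' → Disjoint S S')
  have hP : P.Nonempty := ⟨∅, by simp [P]⟩
  obtain ⟨F, hF, hmax⟩ := Finset.exists_max_image P Finset.card hP
  obtain ⟨hF1, hF2, hF3⟩ := Finset.mem_filter.1 hF
  have hFA : ∀ S ∈ F, S ⊆ A := fun S hS =>
    Finset.mem_powerset.1 (Finset.mem_powerset.1 hF1 hS)
  refine ⟨A \ F.biUnion id, Finset.sdiff_subset, ?_, ?_⟩
  · intro x hx y hy hxy hxy'
    obtain ⟨hxA, hxF⟩ := Finset.mem_sdiff.1 hx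
    obtain ⟨hyA, hyF⟩ := Finset.mem_sdiff.1 hy
    obtain ⟨hsA, hsF⟩ := Finset.mem_sdiff.1 hxy'
    have hx0 : x ≠ 0 := fun h => hX (h ▸ hA hxA)
    have hy0 : y ≠ 0 := fun h => hX (h ▸ hA hyA)
    have hc := tri_card hx0 hy0 hxy
    have hsub : tri x y ⊆ A := by
      intro z hz
      simp only [tri, Finset.mem_insert, Finset.mem_singleton] at hz
      rcases hz with rfl | rfl | rfl <;> assumption
    have hdis : ∀ S ∈ F, Disjoint (tri x y) S := by
      intro S hS
      rw [Finset.disjoint_left]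
      intro z hz hzS
      have hzF : z ∈ F.biUnion id := Finset.mem_biUnion.2 ⟨S, hS, hzS⟩
      simp only [tri, Finset.mem_insert, Finset.mem_singleton] at hz
      rcases hz with rfl | rfl | rfl
      · exact hxF hzF
      · exact hyF hzF
      · exact hsF hzF
    have hnot : tri x y ∉ F := by
      intro hmem
      apply hxF
      exact Finset.mem_biUnion.2 ⟨_, hmem, by simp [tri]⟩
    have hnew : insert (tri x y) F ∈ P := by
      rw [Finset.mem_filter]
      refine ⟨?_, ?_, ?_⟩
      · rw [Finset.mem_powerset]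
        intro S hS
        rw [Finset.mem_powerset]
        rcases Finset.mem_insert.1 hS with rfl | hS
        · exact hsub
        · exact hFA S hS
      · intro S hS
        rcases Finset.mem_insert.1 hS with rfl | hS
        · exact ⟨x, y, rfl, hc⟩
        · exact hF2 S hS
      · intro S hS S' hS' hne
        rcases Finset.mem_insert.1 hS with rfl | hS
        · rcases Finset.mem_insert.1 hS' with rfl | hS'
          · exact absurd rfl hne
          · exact hdis S' hS'
        · rcases Finset.mem_insert.1 hS' with rfl | hS'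
          · exact (hdis S hS).symm
          · exact hF3 S hS S' hS' hne
    have h1 := hmax _ hnew
    rw [Finset.card_insert_of_notMem hnot] at h1
    omega
  · intro V s hV
    let FV := F.filter (fun S => (S ∩ V).Nonempty)
    have hcov : A ∩ V ⊆ FV.biUnion id := by
      intro z hz
      obtain ⟨hzA, hzV⟩ := Finset.mem_inter.1 hz
      by_cases hzF : z ∈ F.biUnion id
      · obtain ⟨S, hS, hzS⟩ := Finset.mem_biUnion.1 hzF
        exact Finset.mem_biUnion.2 ⟨S, Finset.mem_filter.2 ⟨hS, ⟨z, Finset.mem_inter.2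
          ⟨hzS, hzV⟩⟩⟩, hzS⟩
      · exact absurd hzV (hV z (Finset.mem_sdiff.2 ⟨hzA, hzF⟩))
    by_cases hs : s ≤ FV.card
    · right
      obtain ⟨G, hG1, hG2⟩ := Finset.exists_subset_card_eq hs
      have hGF : G ⊆ F := hG1.trans (Finset.filter_subset _ _)
      refine ⟨G, ?_, hG2, fun S hS S' hS' hne => hF3 S (hGF hS) S' (hGF hS') hne,
        fun S hS => hFA S (hGF hS)⟩
      intro S hS
      obtain ⟨hSF, ⟨z, hz⟩⟩ := Finset.mem_filter.1 (hG1 hS)
      obtain ⟨x, y, rfl, hc⟩ := hF2 S hSF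
      obtain ⟨hz1, hz2⟩ := Finset.mem_inter.1 hz
      exact mem_triples ((hFA _ hSF).trans hA) hc hz2 hz1
    · left
      push Not at hs
      refine (Finset.card_le_card hcov).trans ?_
      refine (Finset.card_biUnion_le_card_mul _ _ 3 ?_).trans ?_
      · intro S hS
        obtain ⟨x, y, -, hc⟩ := hF2 S (Finset.mem_filter.1 hS).1
        exact hc.le
      · nlinarith

end vec

end Q119.VS
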